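import Pool.Agent.Lib.MP_ac7d6b_co.Lin

set_option autoImplicit false

namespace Pool.Agent.Lib.MP_ac7d6b_co

open scoped InnerProductSpace

variable {E : Type*} [NormedAddCommGroup E] [InnerProductSpace ℝ E]

/-- The linear part of an affine isometry, as a group homomorphism. -/
noncomputable def lin : (E ≃ᵃⁱ[ℝ] E) →* (E ≃ₗᵢ[ℝ] E) where
  toFun f := f.linearIsometryEquiv
  map_one' := by ext; rfl
  map_mul' _ _ := by ext; rfl

theorem lin_sub (f : E ≃ᵃⁱ[ℝ] E) (x y : E) : lin f (x - y) = f x - f y := f.map_vsub x y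

theorem mul_app (f g : E ≃ᵃⁱ[ℝ] E) (x : E) : (f * g) x = f (g x) := rfl

theorem inv_app (f : E ≃ᵃⁱ[ℝ] E) (x : E) : f⁻¹ (f x) = x := f.symm_apply_apply x

theorem app_inv (f : E ≃ᵃⁱ[ℝ] E) (x : E) : f (f⁻¹ x) = x := f.apply_symm_apply x

theorem norm_sub_app (f : E ≃ᵃⁱ[ℝ] E) (x y : E) : ‖f x - f y‖ = ‖x - y‖ := by
  rw [← lin_sub, LinearIsometryEquiv.norm_map]

theorem eq_one_of_lin {f : E ≃ᵃⁱ[ℝ] E} {x : E} (hx : f x = x) (hl : lin f = 1) : f = 1 := by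
  ext y
  have := lin_sub f y x
  rw [hl, hx] at this
  simpa using this.symm

theorem inv_fix {f : E ≃ᵃⁱ[ℝ] E} {x : E} (hx : f x = x) : f⁻¹ x = x := by
  conv_lhs => rw [← hx]
  exact inv_app f x

/-- `f` and its inverse send the points of `X` within distance `s` of `x` into `X`. -/
def Valid (X : Set E) (x : E) (s : ℝ) (f : E ≃ᵃⁱ[ℝ] E) : Prop :=
  (∀ y ∈ X, ‖y - x‖ ≤ s → f y ∈ X) ∧ (∀ y ∈ X, ‖y - x‖ ≤ s → f⁻¹ y ∈ X)

theorem Valid.mono {X : Set E} {x : E} {s s' : ℝ} {f : E ≃ᵃⁱ[ℝ] E} (h : Valid X x s f)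
    (hs : s' ≤ s) : Valid X x s' f :=
  ⟨fun y hy hd => h.1 y hy (hd.trans hs), fun y hy hd => h.2 y hy (hd.trans hs)⟩

theorem norm_fix {f : E ≃ᵃⁱ[ℝ] E} {x : E} (hx : f x = x) (y : E) : ‖f y - x‖ = ‖y - x‖ := by
  conv_lhs => rw [← hx]
  exact norm_sub_app f y x

/-- The group of the cluster of radius `s` at `x`. -/
def clusterGroup (X : Set E) (x : E) (s : ℝ) : Subgroup (E ≃ᵃⁱ[ℝ] E) where
  carrier := {f | f x = x ∧ Valid X x s f}
  one_mem' := ⟨rfl, fun _ hy _ => hy, fun _ hy _ => hy⟩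
  mul_mem' := by
    rintro f g ⟨hf, hf1, hf2⟩ ⟨hg, hg1, hg2⟩
    refine ⟨by rw [mul_app, hg, hf], fun y hy hd => ?_, fun y hy hd => ?_⟩
    · exact hf1 (g y) (hg1 y hy hd) (by rw [norm_fix hg]; exact hd)
    · rw [mul_inv_rev, mul_app]
      exact hg2 _ (hf2 y hy hd) (by rw [norm_fix (inv_fix hf)]; exact hd)
  inv_mem' := by
    rintro f ⟨hf, hf1, hf2⟩
    exact ⟨inv_fix hf, hf2, by simpa using hf1⟩

theorem mem_clusterGroup {X : Set E} {x : E} {s : ℝ} {f : E ≃ᵃⁱ[ℝ] E} :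
    f ∈ clusterGroup X x s ↔ f x = x ∧ Valid X x s f := Iff.rfl

theorem norm_app_le (f : E ≃ᵃⁱ[ℝ] E) (x y : E) : ‖f y - x‖ ≤ ‖y - x‖ + ‖f x - x‖ := by
  have : f y - x = (f y - f x) + (f x - x) := by abel
  rw [this, ← norm_sub_app f y x]
  exact norm_add_le _ _

theorem norm_inv_disp (f : E ≃ᵃⁱ[ℝ] E) (x : E) : ‖f⁻¹ x - x‖ = ‖f x - x‖ := by
  rw [← norm_sub_app f, app_inv, norm_sub_rev]

/-- Rigidity: an isometry fixing the points of `X` within `3R` of a point of `X` is trivial. -/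
theorem rigid {X : Set E} {R : ℝ} (hR : 0 < R) (hd : ∀ p : E, ∃ y ∈ X, ‖p - y‖ ≤ R) {x : E}
    (hx : x ∈ X) {f : E ≃ᵃⁱ[ℝ] E} (hf : ∀ y ∈ X, ‖y - x‖ ≤ 3 * R → f y = y) : f = 1 := by
  have hfx : f x = x := hf x hx (by simp; linarith)
  apply eq_one_of_lin hfx
  let T : E →L[ℝ] E := ((lin f).toContinuousLinearEquiv : E →L[ℝ] E) - 1
  have hT : ∀ v, T v = lin f v - v := fun v => rfl
  have h1 : ‖T‖ ≤ ‖T‖ / 2 := by
    apply ContinuousLinearMap.opNorm_le_of_unit_norm (by positivity)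
    intro v hv
    obtain ⟨y, hy, hyd⟩ := hd (x + (2 * R) • v)
    have hn : ‖(2 * R) • v‖ = 2 * R := by
      rw [norm_smul, hv, mul_one, Real.norm_eq_abs, abs_of_pos (by linarith)]
    have hyx : ‖y - x‖ ≤ 3 * R := by
      have : y - x = (2 * R) • v - (x + (2 * R) • v - y) := by abel
      rw [this]
      have := norm_sub_le ((2 * R) • v) (x + (2 * R) • v - y)
      linarith
    have h0 : T (y - x) = 0 := by
      rw [hT, lin_sub, hf y hy hyx, hfx, sub_self]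
    have h2 : (2 * R) • T v = T (x + (2 * R) • v - y) := by
      have : x + (2 * R) • v - y = (2 * R) • v - (y - x) := by abel
      rw [this, map_sub, h0, sub_zero, map_smul]
    have h3 : ‖(2 * R) • T v‖ ≤ ‖T‖ * R := by
      rw [h2]
      exact (T.le_opNorm _).trans (mul_le_mul_of_nonneg_left hyd (norm_nonneg _))
    rw [norm_smul, Real.norm_eq_abs, abs_of_pos (by linarith)] at h3
    have : R * ‖T v‖ ≤ R * (‖T‖ / 2) := by linarith
    exact le_of_mul_le_mul_left this hR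
  have h2 : T = 0 := by
    have := norm_nonneg T
    exact norm_eq_zero.1 (by linarith)
  ext v
  have := hT v
  rw [h2] at this
  simp only [zero_apply] at this
  simpa using (sub_eq_zero.1 this.symm)

theorem near_id {X : Set E} {r R : ℝ} (hR : 0 < R)
    (hr : ∀ x ∈ X, ∀ y ∈ X, x ≠ y → r ≤ ‖x - y‖)
    (hd : ∀ p : E, ∃ y ∈ X, ‖p - y‖ ≤ R) {x : E}
    (hx : x ∈ X) {f : E ≃ᵃⁱ[ℝ] E} (hf : Valid X x (3 * R) f) {δ μ : ℝ} (hμ : 0 ≤ μ)
    (hδ : ‖f x - x‖ ≤ δ) (hs : Small μ (lin f)) (hlt : δ + μ * (3 * R) < r) : f = 1 := by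
  apply rigid hR hd hx
  intro y hy hyx
  by_contra hne
  have h1 := hr _ (hf.1 y hy hyx) y hy hne
  have h2 : f y - y = (lin f (y - x) - (y - x)) + (f x - x) := by
    rw [lin_sub]; abel
  have h3 := hs (y - x)
  have h4 : μ * ‖y - x‖ ≤ μ * (3 * R) := mul_le_mul_of_nonneg_left hyx hμ
  have h5 := norm_add_le (lin f (y - x) - (y - x)) (f x - x)
  rw [← h2] at h5
  linarith

theorem comm_valid {X : Set E} {x : E} {σ s δ : ℝ} {g h : E ≃ᵃⁱ[ℝ] E}
    (hg : g ∈ clusterGroup X x σ) (hh : Valid X x s h) (hδ : ‖h x - x‖ ≤ δ) (hs : s + δ ≤ σ) :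
    Valid X x (s - δ) (g * h * g⁻¹ * h⁻¹) := by
  obtain ⟨hgx, hg1, hg2⟩ := hg
  have hδ0 : 0 ≤ δ := (norm_nonneg _).trans hδ
  have hδ' : ‖h⁻¹ x - x‖ ≤ δ := by rw [norm_inv_disp]; exact hδ
  constructor
  · intro y hy hyx
    simp only [mul_app]
    have a1 := hh.2 y hy (by linarith)
    have b1 : ‖h⁻¹ y - x‖ ≤ s := by have := norm_app_le h⁻¹ x y; linarith
    have a2 := hg2 _ a1 (by linarith)
    have b2 : ‖g⁻¹ (h⁻¹ y) - x‖ ≤ s := by rw [norm_fix (inv_fix hgx)]; exact b1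
    have a3 := hh.1 _ a2 b2
    have b3 : ‖h (g⁻¹ (h⁻¹ y)) - x‖ ≤ σ := by
      have := norm_app_le h x (g⁻¹ (h⁻¹ y)); linarith
    exact hg1 _ a3 b3
  · intro y hy hyx
    simp only [mul_inv_rev, inv_inv, mul_app]
    have a1 := hg2 y hy (by linarith)
    have b1 : ‖g⁻¹ y - x‖ ≤ s - δ := by rw [norm_fix (inv_fix hgx)]; exact hyx
    have a2 := hh.2 _ a1 (by linarith)
    have b2 : ‖h⁻¹ (g⁻¹ y) - x‖ ≤ s := by have := norm_app_le h⁻¹ x (g⁻¹ y); linarith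
    have a3 := hg1 _ a2 (by linarith)
    have b3 : ‖g (h⁻¹ (g⁻¹ y)) - x‖ ≤ s := by rw [norm_fix hgx]; exact b2
    exact hh.1 _ a3 b3

theorem comm_disp_eq {x : E} {g h : E ≃ᵃⁱ[ℝ] E} (hg : g x = x) :
    (g * h * g⁻¹ * h⁻¹) x - x
      = lin g (lin h ((lin g)⁻¹ (h⁻¹ x - x) - (h⁻¹ x - x))) := by
  have h1 : (lin g)⁻¹ (h⁻¹ x - x) = g⁻¹ (h⁻¹ x) - x := by
    rw [← map_inv, lin_sub, inv_fix hg]
  have h2 : g⁻¹ (h⁻¹ x) - x - (h⁻¹ x - x) = g⁻¹ (h⁻¹ x) - h⁻¹ x := by abel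
  rw [h1, h2, lin_sub, app_inv, lin_sub, hg]
  rfl

theorem comm_disp {x : E} {c δ : ℝ} {g h : E ≃ᵃⁱ[ℝ] E} (hg : g x = x) (hc : 0 ≤ c)
    (hs : Small c (lin g)) (hδ : ‖h x - x‖ ≤ δ) : ‖(g * h * g⁻¹ * h⁻¹) x - x‖ ≤ c * δ := by
  rw [comm_disp_eq hg, LinearIsometryEquiv.norm_map, LinearIsometryEquiv.norm_map]
  refine (hs.inv _).trans (mul_le_mul_of_nonneg_left ?_ hc)
  rw [norm_inv_disp]
  exact hδ

theorem commute_of_commute_comm [FiniteDimensional ℝ E] {x : E} {g h : E ≃ᵃⁱ[ℝ] E}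
    (hg : g x = x) (hs : Small 1 (lin h)) (hc : Commute g (g * h * g⁻¹ * h⁻¹)) :
    Commute g h := by
  have h1 : Commute g (h * g * h⁻¹) := by
    have h2 : Commute g (g⁻¹ * (g * h * g⁻¹ * h⁻¹)) := (Commute.refl g).inv_right.mul_right hc
    have h3 : g⁻¹ * (g * h * g⁻¹ * h⁻¹) = (h * g * h⁻¹)⁻¹ := by group
    rw [h3] at h2
    simpa using h2.inv_right
  have h2 : Commute (lin g) (lin h * lin g * (lin h)⁻¹) := by
    have := h1.map lin
    simpa only [map_mul, map_inv] using this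
  have h3 := conj_eq_of_commute hs h2
  have h4 : lin h * lin g = lin g * lin h := by
    exact mul_inv_eq_iff_eq_mul.1 h3
  have h5 : lin (g * h * g⁻¹ * h⁻¹) = 1 := by
    simp only [map_mul, map_inv]
    rw [← h4]
    group
  set k := g * h * g⁻¹ * h⁻¹ with hk
  have h6 : lin g (k x - x) = k x - x := by
    rw [lin_sub, hg]
    have : g (k x) = k (g x) := congrArg (fun f : E ≃ᵃⁱ[ℝ] E => f x) hc.eq
    rw [this, hg]
  have h7 : k x - x = lin h (h⁻¹ x - x) - lin g (lin h (h⁻¹ x - x)) := by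
    rw [hk, comm_disp_eq hg, map_sub, map_sub]
    congr 1
    have : ∀ v, lin g (lin h v) = lin h (lin g v) := fun v =>
      congrArg (fun U : E ≃ₗᵢ[ℝ] E => U v) h4.symm
    rw [this]
    simp
  have h8 : k x - x = 0 := by
    set w := k x - x with hw
    set u := lin h (h⁻¹ x - x) with hu
    have : ⟪w, w⟫_ℝ = 0 := by
      calc ⟪w, w⟫_ℝ = ⟪w, u - lin g u⟫_ℝ := by rw [← h7]
        _ = ⟪w, u⟫_ℝ - ⟪lin g w, lin g u⟫_ℝ := by rw [inner_sub_right, h6]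
        _ = 0 := by rw [LinearIsometryEquiv.inner_map_map, sub_self]
    exact inner_self_eq_zero.1 this
  have h9 : k = 1 := eq_one_of_lin (sub_eq_zero.1 h8) h5
  have : g * h = h * g := by
    have : g * h = k * (h * g) := by rw [hk]; group
    rw [this, h9, one_mul]
  exact this

theorem commute_aux [FiniteDimensional ℝ E] {X : Set E} {r R : ℝ} (hR : 0 < R)
    (hr : ∀ x ∈ X, ∀ y ∈ X, x ≠ y → r ≤ ‖x - y‖)
    (hd : ∀ p : E, ∃ y ∈ X, ‖p - y‖ ≤ R) {x : E} (hx : x ∈ X) {σ c : ℝ} {g : E ≃ᵃⁱ[ℝ] E}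
    (hg : g ∈ clusterGroup X x σ) (hc0 : 0 ≤ c) (hc : c ≤ 1 / 2) (hgs : Small c (lin g)) :
    ∀ (n : ℕ) (h : E ≃ᵃⁱ[ℝ] E) (s δ μ : ℝ), Valid X x s h → ‖h x - x‖ ≤ δ → s + δ ≤ σ →
      3 * R ≤ s - 2 * δ → 0 ≤ μ → μ ≤ 1 → Small μ (lin h) →
      δ / 2 ^ n + (2 * c) ^ n * μ * (3 * R) < r → Commute g h := by
  intro n
  induction n with
  | zero =>
    intro h s δ μ hv hδ h1 h2 hμ0 hμ1 hs hlt
    have hδ0 : 0 ≤ δ := (norm_nonneg _).trans hδ
    have : h = 1 := near_id hR hr hd hx (hv.mono (by linarith)) hμ0 hδ hs (by simpa using hlt)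
    rw [this]
    exact Commute.one_right g
  | succ n ih =>
    intro h s δ μ hv hδ h1 h2 hμ0 hμ1 hs hlt
    have hδ0 : 0 ≤ δ := (norm_nonneg _).trans hδ
    apply commute_of_commute_comm hg.1 (hs.mono hμ1)
    refine ih _ (s - δ) (δ / 2) (2 * c * μ) (comm_valid hg hv hδ h1) ?_ (by linarith)
      (by linarith) (by positivity) (by nlinarith) ?_ ?_
    · refine (comm_disp hg.1 hc0 hgs hδ).trans ?_
      nlinarith
    · simp only [map_mul, map_inv]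
      exact hgs.comm hs hc0 hμ0
    · have e1 : δ / 2 / 2 ^ n = δ / 2 ^ (n + 1) := by rw [pow_succ]; field_simp
      have e2 : (2 * c) ^ n * (2 * c * μ) = (2 * c) ^ (n + 1) * μ := by rw [pow_succ]; ring
      rw [e1, e2]
      exact hlt

/-- Small elements of the cluster groups at two nearby points commute. -/
theorem commute_small [FiniteDimensional ℝ E] {X : Set E} {r R : ℝ} (hr0 : 0 < r) (hR : 0 < R)
    (hr : ∀ x ∈ X, ∀ y ∈ X, x ≠ y → r ≤ ‖x - y‖)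
    (hd : ∀ p : E, ∃ y ∈ X, ‖p - y‖ ≤ R) {x z : E} (hx : x ∈ X) {σ c D : ℝ}
    {g h : E ≃ᵃⁱ[ℝ] E} (hg : g ∈ clusterGroup X x σ) (hh : h ∈ clusterGroup X z σ)
    (hc0 : 0 ≤ c) (hc : c < 1 / 2) (hgs : Small c (lin g)) (hhs : Small c (lin h))
    (hxz : ‖x - z‖ ≤ D) (hσ : 2 * D + 3 * R ≤ σ) : Commute g h := by
  have hD : 0 ≤ D := (norm_nonneg _).trans hxz
  have t1 : Filter.Tendsto (fun n : ℕ => D / 2 / 2 ^ n + (2 * c) ^ n * c * (3 * R))
      Filter.atTop (nhds (0 + 0 * c * (3 * R))) := by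
    apply Filter.Tendsto.add
    · have := (tendsto_pow_atTop_nhds_zero_of_lt_one (r := (1 / 2 : ℝ)) (by norm_num)
        (by norm_num)).const_mul (D / 2)
      rw [mul_zero] at this
      refine this.congr fun n => ?_
      rw [one_div, inv_pow, div_eq_mul_inv (D / 2)]
    · exact ((tendsto_pow_atTop_nhds_zero_of_lt_one (by linarith) (by linarith)).mul_const
        c).mul_const _
  have t2 := t1.eventually (gt_mem_nhds (show 0 + 0 * c * (3 * R) < r by simpa using hr0))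
  obtain ⟨n, hn⟩ := t2.exists
  refine commute_aux hR hr hd hx hg hc0 hc.le hgs n h (σ - D) (D / 2) c ?_ ?_ (by linarith)
    (by linarith) hc0 (by linarith) hhs hn
  · have hz : ∀ y : E, ‖y - x‖ ≤ σ - D → ‖y - z‖ ≤ σ := by
      intro y hy
      have : y - z = (y - x) + (x - z) := by abel
      rw [this]
      have := norm_add_le (y - x) (x - z)
      linarith
    exact ⟨fun y hy hyx => hh.2.1 y hy (hz y hyx), fun y hy hyx => hh.2.2 y hy (hz y hyx)⟩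
  · have h1 : h x - x = lin h (x - z) - (x - z) := by
      rw [lin_sub, hh.1]; abel
    rw [h1]
    refine (hhs _).trans ?_
    have := norm_nonneg (x - z)
    nlinarith

end Pool.Agent.Lib.MP_ac7d6b_co
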