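import Mathlib

set_option autoImplicit false

namespace Pool.Agent.Lib.MP_ac7d6b_co

open scoped InnerProductSpace

variable {E : Type*} [NormedAddCommGroup E] [InnerProductSpace ℝ E]

/-- `A` moves every vector by at most `c` times its norm. -/
def Small (c : ℝ) (A : E ≃ₗᵢ[ℝ] E) : Prop := ∀ v : E, ‖A v - v‖ ≤ c * ‖v‖

theorem Small.inv {c : ℝ} {A : E ≃ₗᵢ[ℝ] E} (h : Small c A) : Small c A⁻¹ := by
  intro v
  have h1 := h (A⁻¹ v)
  have h2 : A (A⁻¹ v) = v := by simp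
  rw [h2, norm_sub_rev] at h1
  simpa using h1

theorem Small.conj {c : ℝ} {A : E ≃ₗᵢ[ℝ] E} (h : Small c A) (B : E ≃ₗᵢ[ℝ] E) :
    Small c (B * A * B⁻¹) := by
  intro v
  have h1 := h (B⁻¹ v)
  have h2 : (B * A * B⁻¹) v - v = B (A (B⁻¹ v) - B⁻¹ v) := by simp
  rw [h2, B.norm_map]
  simpa using h1

theorem Small.mono {c c' : ℝ} {A : E ≃ₗᵢ[ℝ] E} (h : Small c A) (hc : c ≤ c') : Small c' A :=
  fun v => (h v).trans (mul_le_mul_of_nonneg_right hc (norm_nonneg v))

theorem Small.comm {a b : ℝ} {A B : E ≃ₗᵢ[ℝ] E} (hA : Small a A) (hB : Small b B)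
    (ha : 0 ≤ a) (hb : 0 ≤ b) : Small (2 * a * b) (A * B * A⁻¹ * B⁻¹) := by
  intro v
  set w := A⁻¹ (B⁻¹ v) with hw
  have hv : v = B (A w) := by simp [hw]
  have hnw : ‖w‖ = ‖v‖ := by simp [hw]
  have h2 : (A * B * A⁻¹ * B⁻¹) v - v
      = (A (B w - w) - (B w - w)) - (B (A w - w) - (A w - w)) := by
    have : (A * B * A⁻¹ * B⁻¹) v = A (B w) := by simp [hw]
    rw [this]
    conv_lhs => rw [hv]
    simp only [map_sub]
    abel
  rw [h2]
  have h3 := hA (B w - w)
  have h4 := hB (A w - w)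
  have h5 := hA w
  have h6 := hB w
  calc _ ≤ ‖A (B w - w) - (B w - w)‖ + ‖B (A w - w) - (A w - w)‖ := norm_sub_le _ _
    _ ≤ a * (b * ‖w‖) + b * (a * ‖w‖) := by
        apply add_le_add
        · exact h3.trans (mul_le_mul_of_nonneg_left h6 ha)
        · exact h4.trans (mul_le_mul_of_nonneg_left h5 hb)
    _ = 2 * a * b * ‖v‖ := by rw [hnw]; ring

theorem inner_pos_of_small {H : E ≃ₗᵢ[ℝ] E} (hH : Small 1 H) (w : E) :
    ‖w‖ ^ 2 / 2 ≤ ⟪w, H w⟫_ℝ := by
  have h1 := hH w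
  have h2 : ‖H w - w‖ ^ 2 ≤ ‖w‖ ^ 2 := by
    rw [one_mul] at h1
    exact pow_le_pow_left₀ (norm_nonneg _) h1 2
  rw [norm_sub_sq_real, H.norm_map, real_inner_comm] at h2
  linarith

theorem inner_iso_inv (U : E ≃ₗᵢ[ℝ] E) (x y : E) : ⟪x, U y⟫_ℝ = ⟪U⁻¹ x, y⟫_ℝ := by
  rw [← U.inner_map_map (U⁻¹ x) y]
  simp

/-- The trace trick: if `G` commutes with `H G H⁻¹` and `H` is near the identity, then `G` and
`H` commute. -/
theorem conj_eq_of_commute [FiniteDimensional ℝ E] {G H : E ≃ₗᵢ[ℝ] E} (hH : Small 1 H)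
    (hc : Commute G (H * G * H⁻¹)) : H * G * H⁻¹ = G := by
  set A := H * G * H⁻¹ with hA
  let φ : (E ≃ₗᵢ[ℝ] E) → (E →ₗ[ℝ] E) := fun U => (U.toLinearEquiv : E →ₗ[ℝ] E)
  have φapp : ∀ U v, φ U v = U v := fun _ _ => rfl
  let B : E →ₗ[ℝ] E := φ A - φ G
  let Bs : E →ₗ[ℝ] E := φ A⁻¹ - φ G⁻¹
  have hadj : ∀ x y, ⟪x, B y⟫_ℝ = ⟪Bs x, y⟫_ℝ := by
    intro x y
    simp only [B, Bs, LinearMap.sub_apply, φapp, inner_sub_left, inner_sub_right]
    rw [inner_iso_inv A, inner_iso_inv G]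
  have hBH : B * φ H = φ H * φ G - φ G * φ H := by
    ext v
    simp [B, φapp, hA]
  have hGB : φ G * Bs = Bs * φ G := by
    ext v
    have h1 : G * A⁻¹ = A⁻¹ * G := hc.inv_right.eq
    have h2 : G (A⁻¹ v) = A⁻¹ (G v) := by
      have := congrArg (fun U : E ≃ₗᵢ[ℝ] E => U v) h1
      simpa using this
    simp only [Bs, Module.End.mul_apply, LinearMap.sub_apply, φapp, map_sub, h2]
    simp
  have htr : LinearMap.trace ℝ E (B * φ H * Bs) = 0 := by
    rw [hBH, sub_mul, map_sub]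
    have : LinearMap.trace ℝ E (φ G * φ H * Bs) = LinearMap.trace ℝ E (φ H * φ G * Bs) := by
      rw [mul_assoc, LinearMap.trace_mul_comm, mul_assoc, mul_assoc, hGB]
    rw [this, sub_self]
  let b := stdOrthonormalBasis ℝ E
  rw [LinearMap.trace_eq_sum_inner _ b] at htr
  have hterm : ∀ i, ⟪b i, (B * φ H * Bs) (b i)⟫_ℝ = ⟪Bs (b i), H (Bs (b i))⟫_ℝ := by
    intro i
    rw [← hadj]
    rfl
  simp only [hterm] at htr
  have hnn : ∀ i ∈ Finset.univ, 0 ≤ ⟪Bs (b i), H (Bs (b i))⟫_ℝ := by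
    intro i _
    have := inner_pos_of_small hH (Bs (b i))
    have h0 : 0 ≤ ‖Bs (b i)‖ ^ 2 / 2 := by positivity
    linarith
  have hz : ∀ i, Bs (b i) = 0 := by
    intro i
    have h1 := (Finset.sum_eq_zero_iff_of_nonneg hnn).1 htr i (Finset.mem_univ i)
    have h2 := inner_pos_of_small hH (Bs (b i))
    have h3 : ‖Bs (b i)‖ ^ 2 = 0 := by
      have h0 : 0 ≤ ‖Bs (b i)‖ ^ 2 := by positivity
      linarith
    simpa using h3
  have hBs : Bs = 0 := b.toBasis.ext (by simpa using hz)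
  have : A⁻¹ = G⁻¹ := by
    ext v
    have := congrArg (fun T : E →ₗ[ℝ] E => T v) hBs
    simp only [Bs, LinearMap.sub_apply, φapp, LinearMap.zero_apply] at this
    exact sub_eq_zero.1 this
  exact inv_injective this

/-- Joint diagonalisation argument: a set of points carrying nonzero commuting symmetric operators
with `M x M z (x - z) = 0` misses a ball of radius `R` centred near any given point. -/
theorem exists_far [FiniteDimensional ℝ E] {ι : Type*} (p : ι → E) (M : ι → E →ₗ[ℝ] E)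
    (hs : ∀ i, (M i).IsSymmetric) (hc : ∀ i j, Commute (M i) (M j)) (hne : ∀ i, M i ≠ 0)
    (hz : ∀ i j, M i (M j (p i - p j)) = 0) (o : E) {R : ℝ} (hR : 0 < R) :
    ∃ q : E, ‖q - o‖ ≤ 2 * R * Module.finrank ℝ E ∧ ∀ i, R < ‖q - p i‖ := by
  classical
  let Λ := {χ : ι → ℝ // ∃ v : E, ‖v‖ = 1 ∧ ∀ i, M i v = χ i • v}
  choose e he1 he2 using fun χ : Λ => χ.2
  have horth : Orthonormal ℝ e := by
    refine ⟨he1, ?_⟩
    intro χ χ' hne'
    have : ∃ i, χ.1 i ≠ χ'.1 i := by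
      by_contra hcon
      push Not at hcon
      exact hne' (Subtype.ext (funext hcon))
    obtain ⟨i, hi⟩ := this
    have h1 := hs i (e χ) (e χ')
    rw [he2, he2, inner_smul_left, inner_smul_right] at h1
    have h2 : (χ.1 i - χ'.1 i) * ⟪e χ, e χ'⟫_ℝ = 0 := by
      simp only [conj_trivial] at h1
      linarith
    exact (mul_eq_zero.1 h2).resolve_left (sub_ne_zero.2 hi)
  have hli := horth.linearIndependent
  have : Finite Λ := hli.finite
  let _ : Fintype Λ := Fintype.ofFinite Λ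
  have hcard : Fintype.card Λ ≤ Module.finrank ℝ E := hli.fintype_card_le_finrank
  have hex : ∀ i, ∃ χ : Λ, χ.1 i ≠ 0 := by
    intro i
    by_contra hcon
    push Not at hcon
    apply hne i
    have htop := LinearMap.IsSymmetric.iSup_iInf_eq_top_of_commute hs (fun i j _ => hc i j)
    have hle : (⊤ : Submodule ℝ E) ≤ LinearMap.ker (M i) := by
      rw [← htop]
      refine iSup_le fun χ v hv => ?_
      by_cases hv0 : v = 0
      · simp [hv0]
      have hv' : ∀ j, M j v = χ j • v := by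
        intro j
        have := (Submodule.mem_iInf _).1 hv j
        exact Module.End.mem_eigenspace_iff.1 this
      have hχ : ∃ u : E, ‖u‖ = 1 ∧ ∀ j, M j u = χ j • u := by
        refine ⟨‖v‖⁻¹ • v, ?_, ?_⟩
        · rw [norm_smul, norm_inv, norm_norm, inv_mul_cancel₀ (norm_ne_zero_iff.2 hv0)]
        · intro j
          rw [map_smul, hv', smul_comm]
      have := hcon ⟨χ, hχ⟩
      simp only at this
      rw [LinearMap.mem_ker, hv', this, zero_smul]
    ext v
    exact hle (Submodule.mem_top (x := v))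
  have hsame : ∀ (χ : Λ) i j, χ.1 i ≠ 0 → χ.1 j ≠ 0 → ⟪e χ, p i⟫_ℝ = ⟪e χ, p j⟫_ℝ := by
    intro χ i j hi hj
    have h1 : ⟪e χ, M i (M j (p i - p j))⟫_ℝ = 0 := by rw [hz]; simp
    rw [← hs i, he2, inner_smul_left, ← hs j, he2, inner_smul_left, inner_sub_right] at h1
    simp only [conj_trivial] at h1
    have h2 := (mul_eq_zero.1 h1).resolve_left hi
    have h3 := (mul_eq_zero.1 h2).resolve_left hj
    linarith
  have ht : ∀ χ : Λ, ∃ t : ℝ, |t| ≤ 2 * R ∧ ∀ i, χ.1 i ≠ 0 → R < |⟪e χ, o - p i⟫_ℝ + t| := by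
    intro χ
    by_cases hχ : ∃ i, χ.1 i ≠ 0
    · obtain ⟨i, hi⟩ := hχ
      by_cases hpos : 0 ≤ ⟪e χ, o - p i⟫_ℝ
      · refine ⟨2 * R, by rw [abs_of_pos (by linarith)], fun j hj => ?_⟩
        rw [inner_sub_right, hsame χ j i hj hi, ← inner_sub_right]
        rw [abs_of_pos (by linarith)]
        linarith
      · refine ⟨-(2 * R), by rw [abs_neg, abs_of_pos (by linarith)], fun j hj => ?_⟩
        rw [inner_sub_right, hsame χ j i hj hi, ← inner_sub_right]
        push Not at hpos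
        rw [abs_of_neg (by linarith)]
        linarith
    · push Not at hχ
      exact ⟨0, by simp; linarith, fun i hi => absurd (hχ i) hi⟩
  choose t ht1 ht2 using ht
  refine ⟨o + ∑ χ, t χ • e χ, ?_, ?_⟩
  · rw [add_sub_cancel_left]
    calc _ ≤ ∑ χ, ‖t χ • e χ‖ := norm_sum_le _ _
      _ ≤ ∑ _χ : Λ, 2 * R := by
          refine Finset.sum_le_sum fun χ _ => ?_
          rw [norm_smul, he1, mul_one, Real.norm_eq_abs]
          exact ht1 χ
      _ = 2 * R * Fintype.card Λ := by simp [mul_comm]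
      _ ≤ 2 * R * Module.finrank ℝ E := by
          have : (Fintype.card Λ : ℝ) ≤ Module.finrank ℝ E := by exact_mod_cast hcard
          exact mul_le_mul_of_nonneg_left this (by linarith)
  · intro i
    obtain ⟨χ, hχ⟩ := hex i
    have h1 := ht2 χ i hχ
    have h2 : ⟪e χ, o + ∑ χ', t χ' • e χ' - p i⟫_ℝ = ⟪e χ, o - p i⟫_ℝ + t χ := by
      rw [inner_sub_right, inner_add_right, horth.inner_right_fintype, inner_sub_right]
      ring
    rw [← h2] at h1
    have h3 := abs_real_inner_le_norm (e χ) (o + ∑ χ', t χ' • e χ' - p i)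
    rw [he1, one_mul] at h3
    exact h1.trans_le h3

end Pool.Agent.Lib.MP_ac7d6b_co
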