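import Pool.Agent.Lib.MP_ac7d6b_co.Comm

set_option autoImplicit false

namespace Pool.Agent.Lib.MP_ac7d6b_co

open scoped InnerProductSpace

variable {E : Type*} [NormedAddCommGroup E] [InnerProductSpace ℝ E]

/-- `f` carries the cluster of radius `s` at `x` onto the cluster of radius `s` at `f x`. -/
def Maps (X : Set E) (s : ℝ) (f : E ≃ᵃⁱ[ℝ] E) (x : E) : Prop :=
  (∀ p ∈ X, ‖p - x‖ ≤ s → f p ∈ X) ∧ (∀ p ∈ X, ‖p - f x‖ ≤ s → f⁻¹ p ∈ X)

theorem Maps.mono {X : Set E} {s s' : ℝ} {f : E ≃ᵃⁱ[ℝ] E} {x : E} (h : Maps X s f x)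
    (hs : s' ≤ s) : Maps X s' f x :=
  ⟨fun y hy hd => h.1 y hy (hd.trans hs), fun y hy hd => h.2 y hy (hd.trans hs)⟩

theorem Maps.inv {X : Set E} {s : ℝ} {f : E ≃ᵃⁱ[ℝ] E} {x : E} (h : Maps X s f x) :
    Maps X s f⁻¹ (f x) :=
  ⟨h.2, by simpa [inv_app] using h.1⟩

theorem Maps.mul {X : Set E} {s : ℝ} {f g : E ≃ᵃⁱ[ℝ] E} {x : E} (hg : Maps X s g x)
    (hf : Maps X s f (g x)) : Maps X s (f * g) x := by
  refine ⟨fun p hp hd => ?_, fun p hp hd => ?_⟩
  · exact hf.1 (g p) (hg.1 p hp hd) (by rw [norm_sub_app]; exact hd)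
  · rw [mul_inv_rev, mul_app]
    refine hg.2 _ (hf.2 p hp hd) ?_
    rw [← norm_sub_app f, app_inv]
    exact hd

theorem maps_of_mem {X : Set E} {s : ℝ} {f : E ≃ᵃⁱ[ℝ] E} {x : E} (h : f ∈ clusterGroup X x s) :
    Maps X s f x := ⟨h.2.1, by rw [h.1]; exact h.2.2⟩

theorem mem_of_maps {X : Set E} {s : ℝ} {f : E ≃ᵃⁱ[ℝ] E} {x : E} (h : Maps X s f x)
    (hx : f x = x) : f ∈ clusterGroup X x s := ⟨hx, h.1, by have := h.2; rwa [hx] at this⟩

theorem conj_mem {X : Set E} {s : ℝ} {φ g : E ≃ᵃⁱ[ℝ] E} {x : E} (hφ : Maps X s φ x)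
    (hg : g ∈ clusterGroup X x s) : φ * g * φ⁻¹ ∈ clusterGroup X (φ x) s := by
  apply mem_of_maps
  · rw [mul_assoc]
    apply Maps.mul
    · apply hφ.inv.mul
      rw [inv_app]
      exact maps_of_mem hg
    · rw [mul_app, inv_app, hg.1]
      exact hφ
  · rw [mul_app, mul_app, inv_app, hg.1]

/-- The symmetric operator `(A - 1)^* (A - 1)`. -/
noncomputable def symOp (A : E ≃ₗᵢ[ℝ] E) : E →ₗ[ℝ] E :=
  (((A⁻¹).toLinearEquiv : E →ₗ[ℝ] E) - 1) * ((A.toLinearEquiv : E →ₗ[ℝ] E) - 1)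

theorem symOp_app (A : E ≃ₗᵢ[ℝ] E) (v : E) : symOp A v = A⁻¹ (A v - v) - (A v - v) := rfl

theorem inner_symOp (A : E ≃ₗᵢ[ℝ] E) (u v : E) :
    ⟪u, symOp A v⟫_ℝ = ⟪A u - u, A v - v⟫_ℝ := by
  rw [symOp_app, inner_sub_right, inner_iso_inv A⁻¹, inv_inv, inner_sub_left]

theorem symOp_symm (A : E ≃ₗᵢ[ℝ] E) : (symOp A).IsSymmetric := by
  intro u v
  rw [real_inner_comm, inner_symOp, inner_symOp, real_inner_comm]

theorem symOp_ne {A : E ≃ₗᵢ[ℝ] E} (h : A ≠ 1) : symOp A ≠ 0 := by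
  intro h0
  apply h
  ext v
  have := inner_symOp A v v
  rw [h0] at this
  simp only [LinearMap.zero_apply, inner_zero_right] at this
  simpa using sub_eq_zero.1 (inner_self_eq_zero.1 this.symm)

theorem symOp_commute {A B : E ≃ₗᵢ[ℝ] E} (h : Commute A B) : Commute (symOp A) (symOp B) := by
  have key : ∀ {U V : E ≃ₗᵢ[ℝ] E}, Commute U V →
      Commute ((U.toLinearEquiv : E →ₗ[ℝ] E) - 1) ((V.toLinearEquiv : E →ₗ[ℝ] E) - 1) := by
    intro U V hUV
    have : Commute (U.toLinearEquiv : E →ₗ[ℝ] E) (V.toLinearEquiv : E →ₗ[ℝ] E) := by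
      ext v
      exact congrArg (fun T : E ≃ₗᵢ[ℝ] E => T v) hUV.eq
    exact (this.sub_right (Commute.one_right _)).sub_left (Commute.one_left _)
  unfold symOp
  exact ((key h.inv_inv).mul_right (key h.inv_left)).mul_left
    ((key h.inv_right).mul_right (key h))

theorem symOp_symOp {A B : E ≃ₗᵢ[ℝ] E} (h : Commute A B) {v : E}
    (hv : A (B v - v) = B v - v) : symOp A (symOp B v) = 0 := by
  have h1 : ∀ w, A (B⁻¹ w) = B⁻¹ (A w) := fun w =>
    congrArg (fun T : E ≃ₗᵢ[ℝ] E => T w) h.inv_right.eq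
  have h2 : A (symOp B v) - symOp B v = 0 := by
    rw [symOp_app, map_sub, h1, hv, sub_self]
  rw [symOp_app, h2, map_zero, sub_self]

/-- A cluster group of radius at least `(8 d + 7) R` has no nontrivial element near the
identity. -/
theorem no_small [FiniteDimensional ℝ E] {X : Set E} {r R : ℝ} (hr0 : 0 < r) (hR : 0 < R)
    (hr : ∀ x ∈ X, ∀ y ∈ X, x ≠ y → r ≤ ‖x - y‖)
    (hd : ∀ p : E, ∃ y ∈ X, ‖p - y‖ ≤ R) {σ c : ℝ}
    (hσ : (8 * Module.finrank ℝ E + 7) * R ≤ σ)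
    (hiso : ∀ x ∈ X, ∀ y ∈ X, ∃ f : E ≃ᵃⁱ[ℝ] E, f x = y ∧ Maps X σ f x)
    {x : E} (hx : x ∈ X) {g : E ≃ᵃⁱ[ℝ] E} (hg : g ∈ clusterGroup X x σ) (hc0 : 0 ≤ c)
    (hc : c < 1 / 2) (hgs : Small c (lin g)) : g = 1 := by
  by_contra hne
  have hall : ∀ y ∈ X, ∃ k ∈ clusterGroup X y σ, Small c (lin k) ∧ lin k ≠ 1 := by
    intro y hy
    obtain ⟨φ, hφ, hm⟩ := hiso x hx y hy
    refine ⟨φ * g * φ⁻¹, hφ ▸ conj_mem hm hg, ?_, ?_⟩
    · simp only [map_mul, map_inv]
      exact hgs.conj _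
    · simp only [map_mul, map_inv]
      intro h1
      apply hne
      apply eq_one_of_lin hg.1
      have : lin g = (lin φ)⁻¹ * (lin φ * lin g * (lin φ)⁻¹) * lin φ := by group
      rw [this, h1]
      group
  choose! k hk1 hk2 hk3 using hall
  set D : ℝ := 2 * R * Module.finrank ℝ E + R with hD
  let ι := {y : E // y ∈ X ∧ ‖y - x‖ ≤ D}
  have hcomm : ∀ i j : ι, Commute (k i.1) (k j.1) := by
    intro i j
    refine commute_small hr0 hR hr hd i.2.1 (hk1 _ i.2.1) (hk1 _ j.2.1) hc0 hc (hk2 _ i.2.1)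
      (hk2 _ j.2.1) (D := 2 * D) ?_ ?_
    · have : i.1 - j.1 = (i.1 - x) - (j.1 - x) := by abel
      rw [this]
      have := norm_sub_le (i.1 - x) (j.1 - x)
      linarith [i.2.2, j.2.2]
    · rw [hD]; linarith
  obtain ⟨q, hq1, hq2⟩ := exists_far (fun i : ι => i.1) (fun i => symOp (lin (k i.1)))
    (fun i => symOp_symm _) (fun i j => symOp_commute ((hcomm i j).map lin))
    (fun i => symOp_ne (hk3 _ i.2.1)) (by
      intro i j
      apply symOp_symOp ((hcomm i j).map lin)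
      have h1 : lin (k j.1) (i.1 - j.1) - (i.1 - j.1) = k j.1 i.1 - i.1 := by
        rw [lin_sub, (hk1 _ j.2.1).1]; abel
      rw [h1, lin_sub, (hk1 _ i.2.1).1]
      have h2 : k i.1 (k j.1 i.1) = k j.1 (k i.1 i.1) :=
        congrArg (fun f : E ≃ᵃⁱ[ℝ] E => f i.1) (hcomm i j).eq
      rw [h2, (hk1 _ i.2.1).1]) x hR
  obtain ⟨y, hy, hyq⟩ := hd q
  have hyx : ‖y - x‖ ≤ D := by
    have : y - x = (q - x) - (q - y) := by abel
    rw [this]
    have := norm_sub_le (q - x) (q - y)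
    linarith
  have := hq2 ⟨y, hy, hyx⟩
  simp only at this
  linarith

/-- Packing bound for a cluster group with no nontrivial element near the identity. -/
theorem card_le [FiniteDimensional ℝ E] (S : Subgroup (E ≃ᵃⁱ[ℝ] E))
    (hS : ∀ g ∈ S, ∀ c : ℝ, 0 ≤ c → c < 1 / 2 → Small c (lin g) → g = 1) :
    Finite S ∧ Nat.card S ≤ 5 ^ (Module.finrank ℝ E * Module.finrank ℝ E) := by
  classical
  let T : (E ≃ᵃⁱ[ℝ] E) → (E →L[ℝ] E) := fun f =>
    (2 : ℝ) • ((lin f).toContinuousLinearEquiv : E →L[ℝ] E)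
  have hT : ∀ f v, T f v = (2 : ℝ) • lin f v := fun _ _ => rfl
  have hsep : ∀ f ∈ S, ∀ g ∈ S, f ≠ g → 1 ≤ ‖T f - T g‖ := by
    intro f hf g hg hne
    by_contra hlt
    push Not at hlt
    apply hne
    have h1 : g⁻¹ * f = 1 := by
      refine hS _ (S.mul_mem (S.inv_mem hg) hf) (‖T f - T g‖ / 2) (by positivity) (by linarith) ?_
      intro v
      have h2 : lin (g⁻¹ * f) v - v = (lin g)⁻¹ (lin f v - lin g v) := by
        simp only [map_mul, map_inv, map_sub]
        simp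
      rw [h2, LinearIsometryEquiv.norm_map]
      have h3 := (T f - T g).le_opNorm v
      rw [sub_apply, hT, hT, ← smul_sub, norm_smul] at h3
      simp only [Real.norm_ofNat] at h3
      linarith
    exact (inv_mul_eq_one.1 h1).symm
  have hfin : ∀ s : Finset (E ≃ᵃⁱ[ℝ] E), (s : Set (E ≃ᵃⁱ[ℝ] E)) ⊆ (S : Set (E ≃ᵃⁱ[ℝ] E)) →
      s.card ≤ 5 ^ (Module.finrank ℝ E * Module.finrank ℝ E) := by
    intro s hs
    have hinj : Set.InjOn T s := by
      intro f hf g hg hfg
      by_contra hne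
      have := hsep f (hs hf) g (hs hg) hne
      rw [hfg, sub_self, norm_zero] at this
      linarith
    rw [← Finset.card_image_of_injOn hinj]
    have hrank : Module.finrank ℝ (E →L[ℝ] E) = Module.finrank ℝ E * Module.finrank ℝ E := by
      rw [← (LinearMap.toContinuousLinearMap (𝕜 := ℝ) (E := E) (F' := E)).finrank_eq,
        Module.finrank_linearMap]
    rw [← hrank]
    apply Besicovitch.card_le_of_separated
    · intro c hc
      obtain ⟨f, _, rfl⟩ := Finset.mem_image.1 hc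
      apply ContinuousLinearMap.opNorm_le_bound _ (by norm_num)
      intro v
      rw [hT, norm_smul]
      simp
    · intro c hc c' hc' hne
      obtain ⟨f, hf, rfl⟩ := Finset.mem_image.1 hc
      obtain ⟨g, hg, rfl⟩ := Finset.mem_image.1 hc'
      exact hsep f (hs hf) g (hs hg) (fun h => hne (by rw [h]))
  have hfinite : (S : Set (E ≃ᵃⁱ[ℝ] E)).Finite := by
    by_contra hinf
    obtain ⟨s, hs, hcard⟩ := Set.Infinite.exists_subset_card_eq hinf
      (5 ^ (Module.finrank ℝ E * Module.finrank ℝ E) + 1)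
    have := hfin s hs
    omega
  refine ⟨hfinite, ?_⟩
  have := hfin hfinite.toFinset (by simp)
  have h2 : Nat.card S = hfinite.toFinset.card := by
    rw [← Set.ncard_eq_toFinset_card _ hfinite]
    rfl
  rw [h2]
  exact this

/-- A decreasing chain of subgroups of a finite group of order `< 2 ^ N` stabilises within `N`
steps. -/
theorem chain_stab {G : Type*} [Group G] (S : ℕ → Subgroup G) (hS : ∀ k, S (k + 1) ≤ S k)
    (hfin : Finite (S 0)) {N : ℕ} (hN : Nat.card (S 0) < 2 ^ N) :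
    ∃ k < N, S k ≤ S (k + 1) := by
  by_contra hcon
  push Not at hcon
  have hf : ∀ k, Finite (S k) := by
    intro k
    induction k with
    | zero => exact hfin
    | succ k ih => exact Finite.of_injective _ (Subgroup.inclusion_injective (hS k))
  have key : ∀ k ≤ N, 2 ^ k * Nat.card (S k) ≤ Nat.card (S 0) := by
    intro k
    induction k with
    | zero => simp
    | succ k ih =>
      intro hk
      have h1 := ih (by omega)
      have := hf k
      have := hf (k + 1)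
      obtain ⟨m, hm⟩ := Subgroup.card_dvd_of_le (hS k)
      have hpos : 0 < Nat.card (S k) := Nat.card_pos
      have hm2 : 2 ≤ m := by
        by_contra hlt
        have : m = 0 ∨ m = 1 := by omega
        rcases this with h | h
        · rw [h] at hm; omega
        · apply hcon k (by omega)
          rw [h, mul_one] at hm
          exact (Subgroup.eq_of_le_of_card_ge (hS k) hm.le).ge
      calc 2 ^ (k + 1) * Nat.card (S (k + 1)) = 2 ^ k * (Nat.card (S (k + 1)) * 2) := by ring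
        _ ≤ 2 ^ k * (Nat.card (S (k + 1)) * m) := by gcongr
        _ = 2 ^ k * Nat.card (S k) := by rw [hm]
        _ ≤ _ := h1
  have h1 := key N le_rfl
  have := hf N
  have hpos : 0 < Nat.card (S N) := Nat.card_pos
  nlinarith

/-- The local criterion for regularity. -/
theorem local_thm {X : Set E} {R : ℝ} (hR : 0 < R) (hd : ∀ p : E, ∃ y ∈ X, ‖p - y‖ ≤ R)
    {s : ℝ} (hs : 0 ≤ s)
    (hiso : ∀ x ∈ X, ∀ y ∈ X, ∃ f : E ≃ᵃⁱ[ℝ] E, f x = y ∧ Maps X (s + 3 * R) f x)
    (hstab : ∀ y ∈ X, clusterGroup X y s ≤ clusterGroup X y (s + 3 * R))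
    {x : E} (hx : x ∈ X) {f : E ≃ᵃⁱ[ℝ] E} (hf : Maps X (s + 3 * R) f x) :
    ∀ y ∈ X, f y ∈ X := by
  have step : ∀ y ∈ X, ∀ z ∈ X, Maps X (s + 3 * R) f y → ‖z - y‖ ≤ 3 * R →
      Maps X (s + 3 * R) f z := by
    intro y _ z hz hm hzy
    have hfz : f z ∈ X := hm.1 z hz (by linarith)
    have h1 : Maps X s f z := by
      refine ⟨fun p hp hd' => hm.1 p hp ?_, fun p hp hd' => hm.2 p hp ?_⟩
      · have : p - y = (p - z) + (z - y) := by abel
        rw [this]
        have := norm_add_le (p - z) (z - y)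
        linarith
      · have : p - f y = (p - f z) + (f z - f y) := by abel
        rw [this]
        have := norm_add_le (p - f z) (f z - f y)
        rw [norm_sub_app] at this
        linarith
    obtain ⟨φ, hφ, hφm⟩ := hiso z hz (f z) hfz
    have h2 : φ⁻¹ * f ∈ clusterGroup X z s := by
      apply mem_of_maps
      · apply h1.mul
        rw [← hφ]
        exact (hφm.mono (by linarith)).inv
      · rw [mul_app, ← hφ, inv_app]
    have h3 := hstab z hz h2
    have h4 : Maps X (s + 3 * R) (φ * (φ⁻¹ * f)) z := by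
      apply (maps_of_mem h3).mul
      rw [h3.1]
      exact hφm
    simpa using h4
  have key : ∀ n : ℕ, ∀ y ∈ X, ‖y - x‖ ≤ n * R → Maps X (s + 3 * R) f y := by
    intro n
    induction n with
    | zero =>
      intro y hy hyx
      exact step x hx y hy hf (by simp at hyx; rw [sub_eq_zero.1 hyx]; simp; linarith)
    | succ n ih =>
      intro y hy hyx
      by_cases h3 : ‖y - x‖ ≤ 3 * R
      · exact step x hx y hy hf h3
      push Not at h3
      have hpos : 0 < ‖y - x‖ := by linarith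
      set t : ℝ := 2 * R / ‖y - x‖ with ht
      have ht0 : 0 ≤ t := by positivity
      have ht1 : t ≤ 1 := by rw [ht, div_le_one hpos]; linarith
      have htn : t * ‖y - x‖ = 2 * R := by rw [ht]; field_simp
      obtain ⟨z, hz, hzq⟩ := hd (y - t • (y - x))
      have a1 : ‖z - x‖ ≤ n * R := by
        have e : z - x = (1 - t) • (y - x) - (y - t • (y - x) - z) := by
          rw [sub_smul, one_smul]; abel
        rw [e]
        have := norm_sub_le ((1 - t) • (y - x)) (y - t • (y - x) - z)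
        rw [norm_smul, Real.norm_eq_abs, abs_of_nonneg (by linarith)] at this
        push_cast at hyx
        nlinarith
      have a2 : ‖y - z‖ ≤ 3 * R := by
        have e : y - z = t • (y - x) + (y - t • (y - x) - z) := by abel
        rw [e]
        have := norm_add_le (t • (y - x)) (y - t • (y - x) - z)
        rw [norm_smul, Real.norm_eq_abs, abs_of_nonneg ht0] at this
        linarith
      exact step z hz y hy (ih z hz a1) a2
  intro y hy
  obtain ⟨n, hn⟩ := exists_nat_ge (‖y - x‖ / R)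
  have := key n y hy (by rwa [div_le_iff₀ hR] at hn)
  exact this.1 y hy (by simp; linarith)

/-- Main theorem: congruent clusters of radius `(9 d ^ 2 + 8 d + 7) R` force regularity. -/
theorem regular [FiniteDimensional ℝ E] {X : Set E} {r R ρ : ℝ} (hr0 : 0 < r) (hR : 0 < R)
    (hr : ∀ x ∈ X, ∀ y ∈ X, x ≠ y → r ≤ ‖x - y‖)
    (hd : ∀ p : E, ∃ y ∈ X, ‖p - y‖ ≤ R) (hdim : 0 < Module.finrank ℝ E)
    (hρ : (9 * (Module.finrank ℝ E) ^ 2 + 8 * Module.finrank ℝ E + 7) * R ≤ ρ)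
    (hiso : ∀ x ∈ X, ∀ y ∈ X, ∃ f : E ≃ᵃⁱ[ℝ] E, f x = y ∧ Maps X ρ f x)
    {x y : E} (hx : x ∈ X) (hy : y ∈ X) :
    ∃ f : E ≃ᵃⁱ[ℝ] E, f x = y ∧ f '' X = X := by
  set d := Module.finrank ℝ E with hdd
  set σ : ℝ := (8 * d + 7) * R with hσ
  have hd0 : (0 : ℝ) ≤ d := Nat.cast_nonneg d
  have hiso' : ∀ s ≤ ρ, ∀ x ∈ X, ∀ y ∈ X, ∃ f : E ≃ᵃⁱ[ℝ] E, f x = y ∧ Maps X s f x := by
    intro s hs x hx y hy
    obtain ⟨f, h1, h2⟩ := hiso x hx y hy
    exact ⟨f, h1, h2.mono hs⟩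
  have hσρ : σ ≤ ρ := by
    have : 0 ≤ 9 * (d : ℝ) ^ 2 * R := by positivity
    rw [hσ]; linarith
  obtain ⟨hfin, hcard⟩ := card_le (clusterGroup X x σ)
    (fun g hg c hc0 hc hgs => no_small hr0 hR hr hd le_rfl (hiso' σ hσρ) hx hg hc0 hc hgs)
  obtain ⟨k, hk, hstab⟩ := chain_stab (fun k : ℕ => clusterGroup X x (σ + k * (3 * R)))
    (fun k f hf => ⟨hf.1, hf.2.mono (by push_cast; linarith)⟩) (by simpa using hfin)
    (N := 3 * (d * d)) (by
      simp only [Nat.cast_zero, zero_mul, add_zero]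
      refine hcard.trans_lt ?_
      rw [pow_mul 2 3]
      exact Nat.pow_lt_pow_left (by norm_num) (by positivity))
  set s : ℝ := σ + k * (3 * R) with hs
  have hs0 : 0 ≤ s := by positivity
  have hsρ : s + 3 * R ≤ ρ := by
    have h1 : ((k + 1 : ℕ) : ℝ) ≤ ((3 * (d * d) : ℕ) : ℝ) := by exact_mod_cast hk
    push_cast at h1
    have h2 := mul_le_mul_of_nonneg_right h1 (show 0 ≤ 3 * R by linarith)
    rw [hs, hσ]
    nlinarith
  have hstab' : clusterGroup X x s ≤ clusterGroup X x (s + 3 * R) := by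
    have e : σ + ((k + 1 : ℕ) : ℝ) * (3 * R) = s + 3 * R := by rw [hs]; push_cast; ring
    simpa only [e] using hstab
  have hstab2 : ∀ z ∈ X, clusterGroup X z s ≤ clusterGroup X z (s + 3 * R) := by
    intro z hz g hg
    obtain ⟨φ, hφ, hm⟩ := hiso' _ hsρ z hz x hx
    have h1 := conj_mem (hm.mono (show s ≤ s + 3 * R by linarith)) hg
    rw [hφ] at h1
    have h2 := hstab' h1
    have h3 := conj_mem hm.inv (hφ ▸ h2)
    rw [inv_app] at h3
    have e : φ⁻¹ * (φ * g * φ⁻¹) * φ⁻¹⁻¹ = g := by group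
    rwa [e] at h3
  obtain ⟨f, hfx, hfm⟩ := hiso' _ hsρ x hx y hy
  refine ⟨f, hfx, ?_⟩
  have h1 := local_thm hR hd hs0 (hiso' _ hsρ) hstab2 hx hfm
  have h2 := local_thm hR hd hs0 (hiso' _ hsρ) hstab2 (hfx ▸ hy : f x ∈ X) hfm.inv
  apply Set.Subset.antisymm
  · rintro _ ⟨p, hp, rfl⟩
    exact h1 p hp
  · intro p hp
    exact ⟨f⁻¹ p, h2 p hp, app_inv f p⟩

end Pool.Agent.Lib.MP_ac7d6b_co
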